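import Pool.Agent.Lib.MP_69c751_al.SE.Tor

set_option autoImplicit false

/-!
Short equations over metabelian groups (MP_69c751_al): the theorem for one equation in one unknown.
-/

namespace Pool.Agent.Lib.MP_69c751_al.SE

open Monoid Pool.Agent.Lib.MP_69c751_al.TM

universe u

theorem prod_zpow {R : Type*} [CommGroup R] (σ : R) (l : List ℤ) :
    (l.map fun c => σ ^ c).prod = σ ^ l.sum := by
  induction l with
  | nil => simp
  | cons c l ih => rw [List.map_cons, List.prod_cons, ih, List.sum_cons, zpow_add]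

/-- The condition on signs used below: for all `N` prime to `q` whose prime divisors are orders of
elements modulo `A`, the exponent sum is prime to `N` and no sum of `N`-th roots of unity with
these signs vanishes. -/
def Good {G : Type u} [Group G] (A : Subgroup G) (q : ℕ) (c : List ℤ) : Prop :=
  ∀ N : ℕ, 0 < N → ¬ q ∣ N → (∀ p : ℕ, p.Prime → p ∣ N → ∃ g : G, g ∉ A ∧ g ^ p ∈ A) →
    IsCoprime c.sum (N : ℤ) ∧ ∀ L : List (ℤ × ℂ), L.map Prod.fst = c →
      (∀ p ∈ L, p.2 ^ N = 1) → (L.map fun p => (p.1 : ℂ) * p.2).sum ≠ 0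

/-- The theorem for one equation over a finitely generated group. -/
theorem sol_fg {G : Type u} [Group G] [Group.FG G] (A : Subgroup G) [A.Normal]
    (hA : ∀ a ∈ A, ∀ b ∈ A, a * b = b * a) (hT : ∀ a b : G, a * b * a⁻¹ * b⁻¹ ∈ A) (q : ℕ)
    (hq : q.Prime) (g₀ : G) (l : List (ℤ × G)) (hl : ∀ p ∈ l, p.1 = 1 ∨ p.1 = -1)
    (hN : Good A q (l.map Prod.fst)) : Sol 3 (fun _ : Unit => wd g₀ l) := by
  classical
  have hcommA : ∀ a b : G ⧸ A, a * b = b * a := by
    intro a b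
    obtain ⟨a, rfl⟩ := QuotientGroup.mk'_surjective A a
    obtain ⟨b, rfl⟩ := QuotientGroup.mk'_surjective A b
    rw [← map_mul, ← map_mul]
    apply QuotientGroup.eq.2
    have h1 := hT b⁻¹ a⁻¹
    have h2 : (a * b)⁻¹ * (b * a) = b⁻¹ * a⁻¹ * b⁻¹⁻¹ * a⁻¹⁻¹ := by group
    rw [h2]
    exact h1
  let _ : CommGroup (G ⧸ A) := { (inferInstance : Group (G ⧸ A)) with mul_comm := hcommA }
  have hfg : Group.FG (G ⧸ A) := inferInstance
  obtain ⟨N, hN0, hqN, hNp, hNt⟩ := exists_power_prime_to (G ⧸ A) q hq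
  obtain ⟨hcop, hne⟩ := hN N hN0 hqN (by
    intro p hp hpN
    obtain ⟨t, ht1, htp⟩ := hNp p hp hpN
    obtain ⟨g, rfl⟩ := QuotientGroup.mk'_surjective A t
    refine ⟨g, fun h => ht1 ((QuotientGroup.eq_one_iff g).2 h), ?_⟩
    rw [← map_pow] at htp
    exact (QuotientGroup.eq_one_iff (g ^ p)).1 htp)
  have hfin : (powMonoidHom N : (G ⧸ A) →* (G ⧸ A)).range.FiniteIndex :=
    Subgroup.finiteIndex_range_powMonoidHom_of_fg _ hN0.ne'
  obtain ⟨D, hDdef⟩ : ∃ D : Subgroup G,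
      D = (powMonoidHom N : (G ⧸ A) →* (G ⧸ A)).range.comap (QuotientGroup.mk' A) := ⟨_, rfl⟩
  have hDn : D.Normal := by rw [hDdef]; infer_instance
  have hmem : ∀ g : G, g ∈ D ↔ ∃ t : G ⧸ A, t ^ N = QuotientGroup.mk' A g := by
    intro g
    rw [hDdef, Subgroup.mem_comap]
    rfl
  have hAD : A ≤ D := by
    intro x hx
    have h1 : QuotientGroup.mk' A x = 1 := (QuotientGroup.eq_one_iff _).2 hx
    rw [hmem, h1]
    exact ⟨1, one_pow N⟩
  have hidx : D.FiniteIndex := by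
    refine ⟨?_⟩
    rw [hDdef, Subgroup.index_comap_of_surjective _ (QuotientGroup.mk'_surjective A)]
    exact hfin.index_ne_zero
  have hDcomm : ∀ a b : G ⧸ D, a * b = b * a := by
    intro a b
    obtain ⟨a, rfl⟩ := QuotientGroup.mk'_surjective D a
    obtain ⟨b, rfl⟩ := QuotientGroup.mk'_surjective D b
    rw [← map_mul, ← map_mul]
    apply QuotientGroup.eq.2
    have h1 := hT b⁻¹ a⁻¹
    have h2 : (a * b)⁻¹ * (b * a) = b⁻¹ * a⁻¹ * b⁻¹⁻¹ * a⁻¹⁻¹ := by group
    rw [h2]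
    exact hAD h1
  have hpow : ∀ t : G ⧸ D, t ^ N = 1 := by
    intro t
    obtain ⟨g, rfl⟩ := QuotientGroup.mk'_surjective D t
    rw [← map_pow]
    apply (QuotientGroup.eq_one_iff (g ^ N)).2
    rw [hmem]
    exact ⟨QuotientGroup.mk' A g, (map_pow _ _ _).symm⟩
  have hfinR : Finite (G ⧸ D) := Subgroup.finite_quotient_of_finiteIndex
  let instR : CommGroup (G ⧸ D) := { (inferInstance : Group (G ⧸ D)) with mul_comm := hDcomm }
  obtain ⟨a, b, hab⟩ := hcop
  obtain ⟨γ, hγ⟩ : ∃ γ : G ⧸ D, γ = QuotientGroup.mk' D g₀ *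
      (l.map fun p => QuotientGroup.mk' D p.2).prod := ⟨_, rfl⟩
  refine partB_ns A D hA (fun a _ b _ => hT a b) q hq ?_ hidx 1 ?_ (fun _ : Unit => wd g₀ l)
    (fun _ => γ ^ (-a)) ?_ ?_
  · intro g hg n hn hgn
    obtain ⟨t, ht⟩ := (hmem g).1 hg
    have h1 : (t ^ N) ^ n = 1 := by
      rw [ht, ← map_pow]
      exact (QuotientGroup.eq_one_iff (g ^ n)).2 hgn
    obtain ⟨k, hk⟩ := hNt t n hn h1
    refine ⟨k, ?_⟩
    rw [ht, ← map_pow] at hk
    exact (QuotientGroup.eq_one_iff (g ^ q ^ k)).1 hk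
  · rw [derivedSeries_succ, derivedSeries_zero, Subgroup.commutator_le]
    intro a _ b _
    exact hAD (hT a b)
  · intro _
    have h1 : ∀ σ : G ⧸ D, (l.map fun p => σ ^ p.1 * QuotientGroup.mk' D p.2).prod =
        σ ^ (l.map Prod.fst).sum * (l.map fun p => QuotientGroup.mk' D p.2).prod := by
      intro σ
      rw [List.prod_map_mul, ← prod_zpow, List.map_map]
      rfl
    rw [evalHom_wd, h1]
    have h2 : QuotientGroup.mk' D g₀ * ((γ ^ (-a)) ^ (l.map Prod.fst).sum *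
        (l.map fun p => QuotientGroup.mk' D p.2).prod) = γ ^ (1 - a * (l.map Prod.fst).sum) := by
      rw [mul_left_comm, ← hγ, ← zpow_mul, ← zpow_add_one]
      congr 1
      ring
    rw [h2]
    have h3 : 1 - a * (l.map Prod.fst).sum = N * b := by linear_combination (-1 : ℤ) * hab
    rw [h3, zpow_mul, zpow_natCast, hpow, one_zpow]
  · intro v hv
    have h1 : v () = 0 := by
      refine eq_zero_of_conv (terms (QuotientGroup.mk' D) (γ ^ (-a)) (QuotientGroup.mk' D g₀) l)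
        (v ()) ?_ ?_
      · intro s
        have h2 := hv () s
        rw [lin_wd _ _ _ _ _ hl] at h2
        exact Multiplicative.ofAdd.injective h2
      · intro χ
        have h3 := hne ((terms (QuotientGroup.mk' D) (γ ^ (-a)) (QuotientGroup.mk' D g₀) l).map
          fun p => (p.1, χ p.2)) (by
            rw [List.map_map, ← terms_fst (QuotientGroup.mk' D) (γ ^ (-a))
              (QuotientGroup.mk' D g₀) l]
            rfl) (by
            intro p hp
            rw [List.mem_map] at hp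
            obtain ⟨p', _, rfl⟩ := hp
            show (χ p'.2) ^ N = 1
            rw [← map_pow, hpow, map_one])
        rw [List.map_map] at h3
        exact h3
    funext k
    exact h1

theorem exists_list_lift {G : Type u} [Group G] (H : Subgroup G) (l : List (ℤ × G))
    (h : ∀ p ∈ l, p.2 ∈ H) : ∃ l' : List (ℤ × H), l'.map (fun c => (c.1, (c.2 : G))) = l := by
  induction l with
  | nil => exact ⟨[], rfl⟩
  | cons p l ih =>
    obtain ⟨l', hl'⟩ := ih (fun q hq => h q (List.mem_cons_of_mem _ hq))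
    exact ⟨(p.1, ⟨p.2, h p List.mem_cons_self⟩) :: l', by rw [List.map_cons, hl']⟩

/-- The theorem for one equation. -/
theorem sol_single {G : Type u} [Group G] (A : Subgroup G) [A.Normal]
    (hA : ∀ a ∈ A, ∀ b ∈ A, a * b = b * a) (hT : ∀ a b : G, a * b * a⁻¹ * b⁻¹ ∈ A) (q : ℕ)
    (hq : q.Prime) (g₀ : G) (l : List (ℤ × G)) (hl : ∀ p ∈ l, p.1 = 1 ∨ p.1 = -1)
    (hN : Good A q (l.map Prod.fst)) : Sol 3 (fun _ : Unit => wd g₀ l) := by
  obtain ⟨H₀, hH₀⟩ : ∃ H₀ : Subgroup G,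
      H₀ = Subgroup.closure {g | g ∈ g₀ :: l.map Prod.snd} := ⟨_, rfl⟩
  have hfg : H₀.FG := by
    rw [Subgroup.fg_iff]
    exact ⟨_, hH₀.symm, List.finite_toSet _⟩
  have hg₀ : g₀ ∈ H₀ := by
    rw [hH₀]
    exact Subgroup.subset_closure List.mem_cons_self
  obtain ⟨l₀, hl₀⟩ := exists_list_lift H₀ l (by
    intro p hp
    rw [hH₀]
    exact Subgroup.subset_closure (List.mem_cons_of_mem _ (List.mem_map_of_mem hp)))
  have h1 : (fun _ : Unit => wd g₀ l) = fun i : Unit => Coprod.map H₀.subtype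
      (MonoidHom.id (FreeGroup Unit)) ((fun _ : Unit => wd (⟨g₀, hg₀⟩ : H₀) l₀) i) := by
    funext _
    rw [map_wd]
    congr 1
    exact hl₀.symm
  rw [h1]
  apply sol_of_local' 3 H₀ hfg
  intro H hle hH
  have hHfg : Group.FG H := (Group.fg_iff_subgroup_fg H).2 hH
  have h2 : (fun i : Unit => Coprod.map (Subgroup.inclusion hle) (MonoidHom.id (FreeGroup Unit))
      ((fun _ : Unit => wd (⟨g₀, hg₀⟩ : H₀) l₀) i)) = fun _ : Unit =>
      wd (⟨g₀, hle hg₀⟩ : H) (l₀.map fun c => (c.1, Subgroup.inclusion hle c.2)) := by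
    funext _
    rw [map_wd]
    rfl
  rw [h2]
  have hfst : (l₀.map fun c => (c.1, Subgroup.inclusion hle c.2)).map Prod.fst =
      l.map Prod.fst := by
    rw [← hl₀, List.map_map, List.map_map]
    rfl
  refine sol_fg (A.subgroupOf H) ?_ ?_ q hq _ _ ?_ ?_
  · intro a ha b hb
    exact Subtype.ext (hA a (Subgroup.mem_subgroupOf.1 ha) b (Subgroup.mem_subgroupOf.1 hb))
  · intro a b
    rw [Subgroup.mem_subgroupOf]
    exact hT a b
  · intro p hp
    rw [List.mem_map] at hp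
    obtain ⟨c, hc, rfl⟩ := hp
    have h3 : (c.1, (c.2 : G)) ∈ l := by
      rw [← hl₀]
      exact List.mem_map_of_mem (f := fun c : ℤ × H₀ => (c.1, (c.2 : G))) hc
    exact hl _ h3
  · rw [hfst]
    intro N hN0 hqN hp
    refine hN N hN0 hqN (fun p hp1 hp2 => ?_)
    obtain ⟨g, hg1, hg2⟩ := hp p hp1 hp2
    rw [Subgroup.mem_subgroupOf] at hg1 hg2
    exact ⟨g, hg1, hg2⟩

/-- The equation in terms of lists. -/
theorem exists_solution_of_sol {G : Type u} [Group G] (d : ℕ) (g₀ : G) (l : List (ℤ × G))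
    (h : Sol d (fun _ : Unit => wd g₀ l)) :
    ∃ (H : Type u) (_ : Group H) (f : G →* H), Function.Injective f ∧ derivedSeries H d = ⊥ ∧
      ∃ x : H, f g₀ * (l.map fun p => x ^ p.1 * f p.2).prod = 1 := by
  obtain ⟨H, _, f, hf, hd, x, hx⟩ := h
  refine ⟨H, inferInstance, f, hf, hd, x (), ?_⟩
  have h1 := hx ()
  rw [evalHom_wd] at h1
  exact h1

end Pool.Agent.Lib.MP_69c751_al.SE
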