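import Pool.Agent.Lib.MP_69c751_al.SE.Odd
import Pool.Agent.Lib.MP_69c751_al.SE.Main

section

set_option autoImplicit false

/-!
Short equations over metabelian groups (MP_69c751_al): signed sums of few roots of unity whose
order has only one small prime divisor.
-/

namespace Pool.Agent.Lib.MP_69c751_al.SE

open Polynomial in
/-- the weighted sum of the values of a polynomial of degree less than `k` is zero -/
theorem sum_eval_eq_zero (k : ℕ) (L : List (ℂ × ℂ))
    (h : ∀ j : ℕ, 1 ≤ j → j ≤ k → (L.map fun p => p.1 * p.2 ^ j).sum = 0) (Q : ℂ[X])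
    (hQ : Q.natDegree < k) : (L.map fun p => p.1 * p.2 * Q.eval p.2).sum = 0 := by
  have key : ∀ L' : List (ℂ × ℂ), (L'.map fun p => p.1 * p.2 * Q.eval p.2).sum =
      ∑ i ∈ Finset.range k, Q.coeff i * (L'.map fun p => p.1 * p.2 ^ (i + 1)).sum := by
    intro L'
    induction L' with
    | nil => simp
    | cons p L' ih =>
      rw [List.map_cons, List.sum_cons, ih, eval_eq_sum_range' hQ, Finset.mul_sum,
        ← Finset.sum_add_distrib]
      apply Finset.sum_congr rfl
      intro i _
      rw [List.map_cons, List.sum_cons]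
      ring
  rw [key L]
  apply Finset.sum_eq_zero
  intro i hi
  rw [h (i + 1) (Nat.le_add_left 1 i) (Finset.mem_range.mp hi), mul_zero]

/-- If `∑ d_i * η_i ^ j = 0` for `j = 1, ..., k`, where `k` is at least the number of the terms
and all `η_i ≠ 0`, then for every `η` the sum of the `d_i` with `η_i = η` is zero.

Proof: for every polynomial `Q` of degree less than `k`, `∑ d_i * η_i * Q(η_i) = 0`. If `η` is
not among the `η_i` the sum is empty. Otherwise take for `Q` the product of the `X - η'` over the
values `η' ≠ η` (a finset with at most `k - 1` elements). -/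
theorem sum_class_eq_zero (k : ℕ) (L : List (ℂ × ℂ)) (hk : L.length ≤ k)
    (hL : ∀ p ∈ L, p.2 ≠ 0)
    (h : ∀ j : ℕ, 1 ≤ j → j ≤ k → (L.map fun p => p.1 * p.2 ^ j).sum = 0) (η : ℂ) :
    ((L.filter fun p => decide (p.2 = η)).map Prod.fst).sum = 0 := by
  set S : Finset ℂ := (L.map Prod.snd).toFinset with hS
  by_cases hη : η ∈ S
  · set Q : Polynomial ℂ := ∏ η' ∈ S.erase η, (Polynomial.X - Polynomial.C η') with hQ
    have hdeg : Q.natDegree < k := by
      rw [hQ, Polynomial.natDegree_finsetProd_X_sub_C_eq_card]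
      have h1 : (S.erase η).card < S.card := Finset.card_erase_lt_of_mem hη
      have h2 : S.card ≤ L.length := by
        have h3 := List.toFinset_card_le (L.map Prod.snd)
        rwa [List.length_map] at h3
      omega
    have hQη : Q.eval η ≠ 0 := by
      rw [hQ, Polynomial.eval_prod, Finset.prod_ne_zero_iff]
      intro a ha
      rw [Polynomial.eval_sub, Polynomial.eval_X, Polynomial.eval_C]
      intro h0
      exact (Finset.mem_erase.mp ha).1 (sub_eq_zero.mp h0).symm
    have hQ0 : ∀ a ∈ S, a ≠ η → Q.eval a = 0 := by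
      intro a ha hne
      rw [hQ, Polynomial.eval_prod]
      apply Finset.prod_eq_zero (Finset.mem_erase.mpr ⟨hne, ha⟩)
      simp
    have key : ∀ L' : List (ℂ × ℂ), (∀ p ∈ L', p.2 ∈ S) →
        (L'.map fun p => p.1 * p.2 * Q.eval p.2).sum =
          ((L'.filter fun p => decide (p.2 = η)).map Prod.fst).sum * (η * Q.eval η) := by
      intro L'
      induction L' with
      | nil => simp
      | cons p L' ih =>
        intro hp
        have ih' := ih fun q hq => hp q (List.mem_cons_of_mem _ hq)
        rw [List.map_cons, List.sum_cons, ih']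
        by_cases hpe : p.2 = η
        · rw [List.filter_cons_of_pos (by simpa using hpe), List.map_cons, List.sum_cons, hpe]
          ring
        · rw [List.filter_cons_of_neg (by simpa using hpe), hQ0 p.2 (hp p List.mem_cons_self) hpe]
          ring
    have h1 := key L (fun p hp => by
      rw [hS, List.mem_toFinset]
      exact List.mem_map_of_mem hp)
    rw [sum_eval_eq_zero k L h Q hdeg] at h1
    have hη0 : η ≠ 0 := by
      rw [hS, List.mem_toFinset, List.mem_map] at hη
      obtain ⟨p, hp, rfl⟩ := hη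
      exact hL p hp
    rcases mul_eq_zero.mp h1.symm with h2 | h2
    · exact h2
    · exact absurd h2 (mul_ne_zero hη0 hQη)
  · have h1 : (L.filter fun p => decide (p.2 = η)) = [] := by
      rw [List.filter_eq_nil_iff]
      intro p hp hpe
      apply hη
      rw [hS, List.mem_toFinset, List.mem_map]
      exact ⟨p, hp, by simpa using hpe⟩
    rw [h1]
    simp

/-- If an integral combination of `r ^ b`-th roots of unity is zero then the sum of its
coefficients is divisible by the prime `r`.

Proof: with a primitive `r ^ b`-th root `z` and `p.2 = z ^ a p`, the integral polynomial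
`∑ c * X ^ a` is divisible by the cyclotomic polynomial of index `r ^ b` whose value at `1` is
`r` (`Polynomial.eval_one_cyclotomic_prime_pow`); for `b = 0` the sum of the coefficients is `0`. -/
theorem dvd_sum_of_pow (r b : ℕ) (hr : r.Prime) (L : List (ℤ × ℂ))
    (hL : ∀ p ∈ L, p.2 ^ r ^ b = 1) (h : (L.map fun p => (p.1 : ℂ) * p.2).sum = 0) :
    (r : ℤ) ∣ (L.map Prod.fst).sum := by
  have hrf : Fact r.Prime := ⟨hr⟩
  rcases b with _ | b
  · have h1 : ∀ L' : List (ℤ × ℂ), (∀ p ∈ L', p.2 ^ r ^ 0 = 1) →
        (L'.map fun p => (p.1 : ℂ) * p.2).sum = (((L'.map Prod.fst).sum : ℤ) : ℂ) := by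
      intro L'
      induction L' with
      | nil => simp
      | cons p L' ih =>
        intro hp
        have ih' := ih fun q hq => hp q (List.mem_cons_of_mem _ hq)
        have h2 := hp p List.mem_cons_self
        rw [pow_zero, pow_one] at h2
        rw [List.map_cons, List.sum_cons, ih', List.map_cons, List.sum_cons, h2]
        push_cast
        ring
    rw [h1 L hL] at h
    have h2 : (L.map Prod.fst).sum = 0 := by exact_mod_cast h
    rw [h2]
    exact dvd_zero _
  · have hN : 0 < r ^ (b + 1) := pow_pos hr.pos _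
    have hz := Complex.isPrimitiveRoot_exp (r ^ (b + 1)) hN.ne'
    set z := Complex.exp (2 * Real.pi * Complex.I / (r ^ (b + 1) : ℕ)) with hzdef
    obtain ⟨P, hP, hP1⟩ := exists_poly (r ^ (b + 1)) hN z hz L hL
    have h1 : Polynomial.aeval z P = 0 := by
      have h2 := hP 1
      simp only [pow_one] at h2
      rw [h2, h]
    have h3 : minpoly ℤ z ∣ P := minpoly.isIntegrallyClosed_dvd (hz.isIntegral hN) h1
    rw [← Polynomial.cyclotomic_eq_minpoly hz hN] at h3
    obtain ⟨Q, rfl⟩ := h3
    rw [← hP1, Polynomial.eval_mul, Polynomial.eval_one_cyclotomic_prime_pow]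
    exact dvd_mul_right _ _

/-- splitting a sum according to the values of a function -/
theorem sum_fiber (g : ℤ × ℂ → ℂ) (S : Finset ℂ) (L : List (ℤ × ℂ)) (hL : ∀ p ∈ L, g p ∈ S) :
    (L.map Prod.fst).sum =
      ∑ η ∈ S, ((L.filter fun p => decide (g p = η)).map Prod.fst).sum := by
  induction L with
  | nil => simp
  | cons p L ih =>
    have ih' := ih fun q hq => hL q (List.mem_cons_of_mem _ hq)
    have h1 : ∀ η ∈ S, (((p :: L).filter fun p => decide (g p = η)).map Prod.fst).sum =
        (if g p = η then p.1 else 0) +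
          ((L.filter fun p => decide (g p = η)).map Prod.fst).sum := by
      intro η _
      by_cases h : g p = η
      · rw [List.filter_cons_of_pos (by simpa using h), List.map_cons, List.sum_cons, if_pos h]
      · rw [List.filter_cons_of_neg (by simpa using h), if_neg h, zero_add]
    rw [Finset.sum_congr rfl h1, Finset.sum_add_distrib, ← ih', List.map_cons, List.sum_cons,
      Finset.sum_ite_eq, if_pos (hL p List.mem_cons_self)]

/-- A sum of at most `k` roots of unity of order dividing `r ^ b * M` with integral coefficients,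
where all prime divisors of `M` are greater than `k`, is not zero if the sum of the coefficients
is not divisible by `r`.

Proof. Choose `u`, `v` with `u ≡ 1 [MOD r ^ b]`, `u ≡ 0 [MOD M]`, `v ≡ 0 [MOD r ^ b]`,
`v ≡ 1 [MOD M]` (Chinese remainder). For `1 ≤ j ≤ k` the number `u + j * v` is prime to
`r ^ b * M` (it is `1` modulo `r ^ b` and `j` modulo `M`, and the prime divisors of `M` are greater
than `j`). By `sum_pow_eq_zero`, `∑ c * (p.2 ^ u) * (p.2 ^ v) ^ j = 0` for `1 ≤ j ≤ k`. By
`sum_class_eq_zero`, for every `η` the sum of the `c * p.2 ^ u` over the `p` with `p.2 ^ v = η` is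
zero, so by `dvd_sum_of_pow` (`(p.2 ^ u) ^ r ^ b = 1` because `M ∣ u`) the sum of the
`c` over these `p` is divisible by `r`. Add up over all values `η`. -/
theorem sum_ne_zero_large (k r b M : ℕ) (hr : r.Prime) (hM0 : 0 < M) (hrM : ¬ r ∣ M)
    (hM : ∀ p : ℕ, p.Prime → p ∣ M → k < p) (L : List (ℤ × ℂ))
    (hL : ∀ p ∈ L, p.2 ^ (r ^ b * M) = 1) (hk : L.length ≤ k)
    (he : ¬ (r : ℤ) ∣ (L.map Prod.fst).sum) : (L.map fun p => (p.1 : ℂ) * p.2).sum ≠ 0 := by
  intro h0
  apply he
  have hcop : Nat.Coprime (r ^ b) M := Nat.Coprime.pow_left b ((hr.coprime_iff_not_dvd).mpr hrM)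
  obtain ⟨u, hu1, hu2⟩ := Nat.chineseRemainder hcop 1 0
  obtain ⟨v, hv1, hv2⟩ := Nat.chineseRemainder hcop 0 1
  have hN : 0 < r ^ b * M := Nat.mul_pos (pow_pos hr.pos _) hM0
  have hMu : M ∣ u := (Nat.modEq_zero_iff_dvd).mp hu2
  have hne : ∀ p ∈ L, p.2 ≠ 0 := by
    intro p hp h1
    have h2 := hL p hp
    rw [h1, zero_pow hN.ne'] at h2
    exact zero_ne_one h2
  have hj : ∀ j : ℕ, 1 ≤ j → j ≤ k →
      ((L.map fun p => ((p.1 : ℂ) * p.2 ^ u, p.2 ^ v)).map fun p => p.1 * p.2 ^ j).sum = 0 := by
    intro j hj1 hjk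
    have h1 : Nat.Coprime (u + j * v) (r ^ b * M) := by
      apply Nat.Coprime.mul_right
      · have h2 : u + j * v ≡ 1 + j * 0 [MOD r ^ b] := Nat.ModEq.add hu1 (hv1.mul_left j)
        have h3 := h2.gcd_eq
        rw [mul_zero, add_zero, Nat.gcd_one_left] at h3
        exact h3
      · have h2 : u + j * v ≡ 0 + j * 1 [MOD M] := Nat.ModEq.add hu2 (hv2.mul_left j)
        have h3 := h2.gcd_eq
        rw [mul_one, zero_add] at h3
        have h4 : Nat.Coprime j M := by
          by_contra h5
          obtain ⟨p, hp, hpj, hpM⟩ := Nat.Prime.not_coprime_iff_dvd.mp h5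
          have h6 := hM p hp hpM
          have h7 := Nat.le_of_dvd (by omega) hpj
          omega
        exact h3.trans h4
    have h2 := sum_pow_eq_zero (r ^ b * M) (u + j * v) hN h1 L hL h0
    rw [List.map_map, ← h2]
    congr 1
    apply List.map_congr_left
    intro p _
    simp only [Function.comp]
    rw [pow_add, mul_comm j v, pow_mul, mul_assoc]
  rw [sum_fiber (fun p => p.2 ^ v) (L.map fun p => p.2 ^ v).toFinset L (fun p hp => by
    rw [List.mem_toFinset]
    exact List.mem_map_of_mem hp)]
  apply Finset.dvd_sum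
  intro η _
  have h1 := sum_class_eq_zero k (L.map fun p => ((p.1 : ℂ) * p.2 ^ u, p.2 ^ v))
    (by rwa [List.length_map]) (by
      intro p hp
      rw [List.mem_map] at hp
      obtain ⟨q, hq, rfl⟩ := hp
      exact pow_ne_zero _ (hne q hq)) hj η
  rw [List.filter_map, List.map_map] at h1
  have h2 := dvd_sum_of_pow r b hr
    ((L.filter fun p => decide (p.2 ^ v = η)).map fun p => (p.1, p.2 ^ u)) (by
      intro p hp
      rw [List.mem_map] at hp
      obtain ⟨q, hq, rfl⟩ := hp
      have hqL := (List.mem_filter.mp hq).1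
      obtain ⟨t, rfl⟩ := hMu
      change (q.2 ^ (M * t)) ^ r ^ b = 1
      rw [← pow_mul, show M * t * r ^ b = (r ^ b * M) * t by ring, pow_mul, hL q hqL, one_pow])
    (by
      rw [List.map_map]
      exact h1)
  rw [List.map_map] at h2
  exact h2

end Pool.Agent.Lib.MP_69c751_al.SE
end

section

set_option autoImplicit false

/-!
Short equations over metabelian groups (MP_69c751_al): at most two small primes.
-/

namespace Pool.Agent.Lib.MP_69c751_al.SE

universe u

theorem natAbs_sum_le (c : List ℤ) (hc : ∀ x ∈ c, x = 1 ∨ x = -1) : c.sum.natAbs ≤ c.length := by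
  induction c with
  | nil => simp
  | cons x c ih =>
    rw [List.sum_cons, List.length_cons]
    have h1 := ih (fun y hy => hc y (List.mem_cons_of_mem _ hy))
    have h2 := Int.natAbs_add_le x c.sum
    have h3 : x.natAbs = 1 := by
      rcases hc x List.mem_cons_self with h | h <;> simp [h]
    omega

theorem good_large {G : Type u} [Group G] (A : Subgroup G) (q r : ℕ) (hr : r.Prime)
    (c : List ℤ) (hc : ∀ x ∈ c, x = 1 ∨ x = -1) (he : ¬ (r : ℤ) ∣ c.sum)
    (hp : ∀ p : ℕ, p.Prime → p ≤ c.length → (∃ g : G, g ∉ A ∧ g ^ p ∈ A) → p = q ∨ p = r) :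
    Good A q c := by
  intro N hN0 hqN hNp
  obtain ⟨b, M, hrM, hNM⟩ := Nat.exists_eq_pow_mul_and_not_dvd hN0.ne' r hr.ne_one
  have hM0 : 0 < M := by
    rcases Nat.eq_zero_or_pos M with h | h
    · rw [h, mul_zero] at hNM
      omega
    · exact h
  have hMp : ∀ p : ℕ, p.Prime → p ∣ M → c.length < p := by
    intro p hpp hpM
    by_contra h
    rw [not_lt] at h
    rcases hp p hpp h (hNp p hpp (hNM ▸ Dvd.dvd.mul_left hpM _)) with h1 | h1
    · exact hqN (h1 ▸ (hNM ▸ Dvd.dvd.mul_left hpM _))
    · exact hrM (h1 ▸ hpM)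
  have he0 : c.sum ≠ 0 := by
    intro h
    apply he
    rw [h]
    exact dvd_zero _
  have hle := natAbs_sum_le c hc
  refine ⟨?_, ?_⟩
  · rw [Int.isCoprime_iff_gcd_eq_one]
    show Nat.Coprime c.sum.natAbs (N : ℤ).natAbs
    rw [Int.natAbs_natCast]
    by_contra hnc
    obtain ⟨p, hpp, hp1, hp2⟩ := Nat.Prime.not_coprime_iff_dvd.1 hnc
    rw [hNM] at hp2
    rcases (Nat.Prime.dvd_mul hpp).1 hp2 with h1 | h1
    · have h2 : p = r := (Nat.prime_dvd_prime_iff_eq hpp hr).1 (hpp.dvd_of_dvd_pow h1)
      apply he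
      rw [← h2]
      exact Int.natCast_dvd.2 hp1
    · have h2 := hMp p hpp h1
      have h3 := Nat.le_of_dvd (Int.natAbs_pos.2 he0) hp1
      omega
  · intro L hL1 hL2
    refine sum_ne_zero_large c.length r b M hr hM0 hrM hMp L ?_ ?_ ?_
    · intro p hp
      rw [← hNM]
      exact hL2 p hp
    · rw [← hL1, List.length_map]
    · rw [hL1]
      exact he

end Pool.Agent.Lib.MP_69c751_al.SE
end
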