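import Mathlib

set_option autoImplicit false

/-!
Short equations over metabelian groups (MP_69c751_al): short signed sums of roots of unity of odd
order.
-/

namespace Pool.Agent.Lib.MP_69c751_al.SE

open Polynomial in
/-- the polynomial of a combination of powers of `z` -/
theorem exists_poly (N : ℕ) (hN : 0 < N) (z : ℂ) (hz : IsPrimitiveRoot z N) (L : List (ℤ × ℂ))
    (hL : ∀ p ∈ L, p.2 ^ N = 1) :
    ∃ P : ℤ[X], (∀ j : ℕ, aeval (z ^ j) P = (L.map fun p => (p.1 : ℂ) * p.2 ^ j).sum) ∧
      P.eval 1 = (L.map Prod.fst).sum := by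
  have : NeZero N := ⟨hN.ne'⟩
  induction L with
  | nil => exact ⟨0, by simp, by simp⟩
  | cons p L ih =>
    obtain ⟨P, hP1, hP2⟩ := ih fun q hq => hL q (List.mem_cons_of_mem _ hq)
    obtain ⟨a, _, ha⟩ := hz.eq_pow_of_pow_eq_one (hL p List.mem_cons_self)
    refine ⟨C p.1 * X ^ a + P, fun j => ?_, ?_⟩
    · rw [map_add, hP1 j, List.map_cons, List.sum_cons, map_mul, map_pow, aeval_X, aeval_C,
        ← pow_mul, mul_comm j a, pow_mul, ha]
      simp
    · rw [eval_add, hP2, List.map_cons, List.sum_cons]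
      simp

/-- Galois conjugation: an integral relation between `N`-th roots of unity is preserved by
`ζ ↦ ζ ^ m` if `m` is prime to `N`.

Proof: let `z` be a primitive `N`-th root of unity, `p.2 = z ^ a p`. The integral polynomial
`P = ∑ c * X ^ a` vanishes at `z`, so it is divisible by `minpoly ℤ z = minpoly ℤ (z ^ m)`
(`IsPrimitiveRoot.minpoly_eq_pow_coprime`), and it vanishes at `z ^ m`. -/
theorem sum_pow_eq_zero (N m : ℕ) (hN : 0 < N) (hm : Nat.Coprime m N) (L : List (ℤ × ℂ))
    (hL : ∀ p ∈ L, p.2 ^ N = 1) (h : (L.map fun p => (p.1 : ℂ) * p.2).sum = 0) :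
    (L.map fun p => (p.1 : ℂ) * p.2 ^ m).sum = 0 := by
  have hz := Complex.isPrimitiveRoot_exp N hN.ne'
  set z := Complex.exp (2 * Real.pi * Complex.I / N) with hzdef
  obtain ⟨P, hP, -⟩ := exists_poly N hN z hz L hL
  have h1 : Polynomial.aeval z P = 0 := by
    have h2 := hP 1
    simp only [pow_one] at h2
    rw [h2, h]
  have h3 : minpoly ℤ z ∣ P := minpoly.isIntegrallyClosed_dvd (hz.isIntegral hN) h1
  rw [hz.minpoly_eq_pow_coprime hm] at h3
  rw [← hP m]
  obtain ⟨Q, rfl⟩ := h3
  rw [map_mul, minpoly.aeval, zero_mul]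

/-- Complex conjugation. -/
theorem sum_inv_eq_zero (N : ℕ) (hN : 0 < N) (L : List (ℤ × ℂ))
    (hL : ∀ p ∈ L, p.2 ^ N = 1) (h : (L.map fun p => (p.1 : ℂ) * p.2).sum = 0) :
    (L.map fun p => (p.1 : ℂ) * (p.2)⁻¹).sum = 0 := by
  have h1 : Nat.Coprime (N - 1) N := by
    rcases Nat.exists_eq_succ_of_ne_zero hN.ne' with ⟨n, rfl⟩
    simp
  have h2 := sum_pow_eq_zero N (N - 1) hN h1 L hL h
  rw [← h2]
  congr 1
  apply List.map_congr_left
  intro p hp
  have h3 := hL p hp
  have h4 : p.2 ^ (N - 1) * p.2 = 1 := by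
    rw [← pow_succ, Nat.sub_add_cancel hN, h3]
  rw [eq_inv_of_mul_eq_one_left h4]

theorem signed_sum (P Q : List ℂ) (f : ℂ → ℂ) :
    (((P.map fun x => ((1 : ℤ), x)) ++ (Q.map fun x => ((-1 : ℤ), x))).map
      fun p => (p.1 : ℂ) * f p.2).sum = (P.map f).sum - (Q.map f).sum := by
  have h1 : ∀ Q : List ℂ, ((Q.map fun x => ((-1 : ℤ), x)).map
      fun p => (p.1 : ℂ) * f p.2).sum = - (Q.map f).sum := by
    intro Q
    induction Q with
    | nil => simp
    | cons x Q ih =>
      rw [List.map_cons, List.map_cons, List.sum_cons, ih, List.map_cons, List.sum_cons]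
      push_cast
      ring
  have h2 : ∀ P : List ℂ, ((P.map fun x => ((1 : ℤ), x)).map
      fun p => (p.1 : ℂ) * f p.2).sum = (P.map f).sum := by
    intro P
    induction P with
    | nil => simp
    | cons x P ih =>
      rw [List.map_cons, List.map_cons, List.sum_cons, ih, List.map_cons, List.sum_cons]
      push_cast
      ring
  rw [List.map_append, List.sum_append, h1, h2, sub_eq_add_neg]

/-- relations between two lists of `N`-th roots of unity, `N` odd -/
theorem two_lists (N : ℕ) (hN : Odd N) (P Q : List ℂ) (hP : ∀ x ∈ P, x ^ N = 1)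
    (hQ : ∀ x ∈ Q, x ^ N = 1) (h : P.sum = Q.sum) :
    (P.map fun x => x ^ 2).sum = (Q.map fun x => x ^ 2).sum ∧
      (P.map fun x => x⁻¹).sum = (Q.map fun x => x⁻¹).sum := by
  have hL : ∀ p ∈ (P.map fun x => ((1 : ℤ), x)) ++ (Q.map fun x => ((-1 : ℤ), x)),
      p.2 ^ N = 1 := by
    intro p hp
    rw [List.mem_append, List.mem_map, List.mem_map] at hp
    rcases hp with ⟨x, hx, rfl⟩ | ⟨x, hx, rfl⟩
    · exact hP x hx
    · exact hQ x hx
  have h0 : (((P.map fun x => ((1 : ℤ), x)) ++ (Q.map fun x => ((-1 : ℤ), x))).map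
      fun p => (p.1 : ℂ) * p.2).sum = 0 := by
    have h1 := signed_sum P Q id
    rw [List.map_id, List.map_id, h, sub_self] at h1
    exact h1
  have hc : Nat.Coprime 2 N := Nat.coprime_two_left.mpr hN
  constructor
  · have h1 := sum_pow_eq_zero N 2 hN.pos hc _ hL h0
    rw [signed_sum P Q (fun x => x ^ 2)] at h1
    exact sub_eq_zero.mp h1
  · have h1 := sum_inv_eq_zero N hN.pos _ hL h0
    rw [signed_sum P Q (fun x => x⁻¹)] at h1
    exact sub_eq_zero.mp h1

theorem root_ne_zero (N : ℕ) (hN : Odd N) {x : ℂ} (hx : x ^ N = 1) : x ≠ 0 := by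
  rintro rfl
  rw [zero_pow hN.pos.ne'] at hx
  exact zero_ne_one hx

theorem ne_neg (N : ℕ) (hN : Odd N) {x y : ℂ} (hx : x ^ N = 1) (hy : y ^ N = 1) : x ≠ -y := by
  rintro rfl
  rw [hN.neg_pow, hy] at hx
  norm_num at hx

/-- no sum of two roots of unity of odd order is a root of unity of odd order -/
theorem two_one (N : ℕ) (hN : Odd N) {x y z : ℂ} (hx : x ^ N = 1) (hy : y ^ N = 1)
    (hz : z ^ N = 1) : x + y ≠ z := by
  intro h
  obtain ⟨h1, -⟩ := two_lists N hN [x, y] [z] (by simp [hx, hy]) (by simp [hz]) (by simpa using h)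
  simp only [List.map_cons, List.map_nil, List.sum_cons, List.sum_nil, add_zero] at h1
  have h2 : x * y = 0 := by
    have h3 : 2 * (x * y) = 0 := by
      rw [← h] at h1
      linear_combination -h1
    simpa using h3
  rcases mul_eq_zero.mp h2 with h3 | h3
  · exact root_ne_zero N hN hx h3
  · exact root_ne_zero N hN hy h3

theorem three_one (N : ℕ) (hN : Odd N) {x y z w : ℂ} (hx : x ^ N = 1) (hy : y ^ N = 1)
    (hz : z ^ N = 1) (hw : w ^ N = 1) : x + y + z ≠ w := by
  intro h
  obtain ⟨h1, h2⟩ := two_lists N hN [x, y, z] [w] (by simp [hx, hy, hz]) (by simp [hw])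
    (by simpa [add_assoc] using h)
  simp only [List.map_cons, List.map_nil, List.sum_cons, List.sum_nil, add_zero] at h1 h2
  have x0 := root_ne_zero N hN hx
  have y0 := root_ne_zero N hN hy
  have z0 := root_ne_zero N hN hz
  have w0 := root_ne_zero N hN hw
  have h3 : x * y + y * z + z * x = 0 := by
    have h4 : 2 * (x * y + y * z + z * x) = 0 := by
      rw [← h] at h1
      linear_combination -h1
    simpa using h4
  have h5 : x⁻¹ + (y⁻¹ + z⁻¹) = (x * y + y * z + z * x) / (x * y * z) := by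
    field_simp
    ring
  rw [h5, h3, zero_div] at h2
  exact w0 (inv_eq_zero.mp h2.symm)

theorem four_zero (N : ℕ) (hN : Odd N) {x y z t : ℂ} (hx : x ^ N = 1) (hy : y ^ N = 1)
    (hz : z ^ N = 1) (ht : t ^ N = 1) : x + y + z + t ≠ 0 := by
  intro h
  obtain ⟨h1, h2⟩ := two_lists N hN [x, y, z, t] [] (by simp [hx, hy, hz, ht]) (by simp)
    (by simpa [add_assoc] using h)
  simp only [List.map_cons, List.map_nil, List.sum_cons, List.sum_nil, add_zero] at h1 h2
  have x0 := root_ne_zero N hN hx
  have y0 := root_ne_zero N hN hy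
  have z0 := root_ne_zero N hN hz
  have t0 := root_ne_zero N hN ht
  have h3 : x * y + x * z + x * t + y * z + y * t + z * t = 0 := by
    have h4 : 2 * (x * y + x * z + x * t + y * z + y * t + z * t) = 0 := by
      linear_combination (x + y + z + t) * h - h1
    simpa using h4
  have h5 : y * z * t + x * z * t + x * y * t + x * y * z = 0 := by
    have h6 : x⁻¹ + (y⁻¹ + (z⁻¹ + t⁻¹)) =
        (y * z * t + x * z * t + x * y * t + x * y * z) / (x * y * z * t) := by
      field_simp
      ring
    rw [h6, div_eq_zero_iff] at h2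
    rcases h2 with h2 | h2
    · exact h2
    · exact absurd h2 (mul_ne_zero (mul_ne_zero (mul_ne_zero x0 y0) z0) t0)
  have h7 : x ^ 4 = -(x * y * z * t) := by
    linear_combination x ^ 3 * h - x ^ 2 * h3 + x * h5
  apply ne_neg N hN (x := x ^ 4) (y := x * y * z * t) _ _ h7
  · rw [← pow_mul, mul_comm, pow_mul, hx, one_pow]
  · rw [mul_pow, mul_pow, mul_pow, hx, hy, hz, ht]
    norm_num

theorem three_two (N : ℕ) (hN : Odd N) {x y z u v : ℂ} (hx : x ^ N = 1) (hy : y ^ N = 1)
    (hz : z ^ N = 1) (hu : u ^ N = 1) (hv : v ^ N = 1) : x + y + z ≠ u + v := by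
  intro h
  obtain ⟨h1, h2⟩ := two_lists N hN [x, y, z] [u, v] (by simp [hx, hy, hz]) (by simp [hu, hv])
    (by simpa [add_assoc] using h)
  simp only [List.map_cons, List.map_nil, List.sum_cons, List.sum_nil, add_zero] at h1 h2
  have x0 := root_ne_zero N hN hx
  have y0 := root_ne_zero N hN hy
  have z0 := root_ne_zero N hN hz
  have u0 := root_ne_zero N hN hu
  have v0 := root_ne_zero N hN hv
  have h3 : x * y + y * z + z * x = u * v := by
    have h4 : 2 * (x * y + y * z + z * x) = 2 * (u * v) := by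
      linear_combination (x + y + z + (u + v)) * h - h1
    exact mul_left_cancel₀ two_ne_zero h4
  have h5 : x⁻¹ + (y⁻¹ + z⁻¹) = (x * y + y * z + z * x) / (x * y * z) := by
    field_simp
    ring
  have h6 : u⁻¹ + v⁻¹ = (u + v) / (u * v) := by
    field_simp
    ring
  rw [h5, h6, h3, div_eq_div_iff (mul_ne_zero (mul_ne_zero x0 y0) z0) (mul_ne_zero u0 v0)] at h2
  have h7 : u + v = (u * v) ^ 2 / (x * y * z) := by
    rw [eq_div_iff (mul_ne_zero (mul_ne_zero x0 y0) z0)]
    linear_combination -h2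
  refine two_one N hN hu hv ?_ h7
  have e1 : (x * y * z) ^ N = 1 := by rw [mul_pow, mul_pow, hx, hy, hz, one_mul, one_mul]
  have e2 : (u * v) ^ N = 1 := by rw [mul_pow, hu, hv, one_mul]
  rw [div_pow, e1, ← pow_mul, mul_comm 2 N, pow_mul, e2, one_pow, div_one]

/-- the cases -/
theorem cases_odd (N : ℕ) (hN : Odd N) (P Q : List ℂ) (hP : ∀ x ∈ P, x ^ N = 1)
    (hQ : ∀ x ∈ Q, x ^ N = 1) (hk : P.length + Q.length ≤ 5)
    (he : P.length = Q.length + 1 ∨ P.length = Q.length + 2 ∨ P.length = Q.length + 4) :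
    P.sum ≠ Q.sum := by
  match P, Q, hP, hQ, hk, he with
  | [], Q, _, _, _, he => simp at he
  | [x], [], hP, hQ, hk, he =>
    have hx := hP x (by simp)
    simpa using root_ne_zero N hN hx
  | [x], y :: Q, hP, hQ, hk, he => simp at he
  | [x, y], [], hP, hQ, hk, he =>
    have hx := hP x (by simp)
    have hy := hP y (by simp)
    have := ne_neg N hN hx hy
    simpa [add_eq_zero_iff_eq_neg] using this
  | [x, y], [z], hP, hQ, hk, he =>
    have hx := hP x (by simp)
    have hy := hP y (by simp)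
    have hz := hQ z (by simp)
    simpa using two_one N hN hx hy hz
  | [x, y], z :: w :: Q, hP, hQ, hk, he => simp at he
  | [x, y, z], [], hP, hQ, hk, he => simp at he
  | [x, y, z], [w], hP, hQ, hk, he =>
    have hx := hP x (by simp)
    have hy := hP y (by simp)
    have hz := hP z (by simp)
    have hw := hQ w (by simp)
    simpa [add_assoc] using three_one N hN hx hy hz hw
  | [x, y, z], [u, v], hP, hQ, hk, he =>
    have hx := hP x (by simp)
    have hy := hP y (by simp)
    have hz := hP z (by simp)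
    have hu := hQ u (by simp)
    have hv := hQ v (by simp)
    simpa [add_assoc] using three_two N hN hx hy hz hu hv
  | [x, y, z], u :: v :: w :: Q, hP, hQ, hk, he =>
    simp at he
  | [x, y, z, t], [], hP, hQ, hk, he =>
    have hx := hP x (by simp)
    have hy := hP y (by simp)
    have hz := hP z (by simp)
    have ht := hP t (by simp)
    simpa [add_assoc] using four_zero N hN hx hy hz ht
  | [x, y, z, t], [u], hP, hQ, hk, he => simp at he
  | [x, y, z, t], u :: v :: Q, hP, hQ, hk, he =>
    simp at hk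
    omega
  | x :: y :: z :: t :: s :: P, Q, hP, hQ, hk, he =>
    simp at hk he
    omega

/-- splitting a signed list -/
theorem exists_split (N : ℕ) (L : List (ℤ × ℂ))
    (hL : ∀ p ∈ L, (p.1 = 1 ∨ p.1 = -1) ∧ p.2 ^ N = 1) :
    ∃ P Q : List ℂ, (∀ x ∈ P, x ^ N = 1) ∧ (∀ x ∈ Q, x ^ N = 1) ∧
      P.length + Q.length = L.length ∧ (P.length : ℤ) - Q.length = (L.map Prod.fst).sum ∧
      P.sum - Q.sum = (L.map fun p => (p.1 : ℂ) * p.2).sum := by
  induction L with
  | nil => exact ⟨[], [], by simp, by simp, by simp, by simp, by simp⟩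
  | cons p L ih =>
    obtain ⟨P, Q, h1, h2, h3, h4, h5⟩ := ih fun q hq => hL q (List.mem_cons_of_mem _ hq)
    obtain ⟨hp1, hp2⟩ := hL p List.mem_cons_self
    rcases hp1 with hp1 | hp1
    · refine ⟨p.2 :: P, Q, ?_, h2, ?_, ?_, ?_⟩
      · intro x hx
        rcases List.mem_cons.mp hx with rfl | hx
        · exact hp2
        · exact h1 x hx
      · simp only [List.length_cons]
        omega
      · simp only [List.length_cons, List.map_cons, List.sum_cons, hp1, ← h4]
        push_cast
        ring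
      · simp only [List.map_cons, List.sum_cons, hp1, ← h5]
        push_cast
        ring
    · refine ⟨P, p.2 :: Q, h1, ?_, ?_, ?_, ?_⟩
      · intro x hx
        rcases List.mem_cons.mp hx with rfl | hx
        · exact hp2
        · exact h2 x hx
      · simp only [List.length_cons]
        omega
      · simp only [List.length_cons, List.map_cons, List.sum_cons, hp1, ← h4]
        push_cast
        ring
      · simp only [List.map_cons, List.sum_cons, hp1, ← h5]
        push_cast
        ring

/-- A sum of at most five roots of unity of odd order with signs is not zero if the sum of the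
signs is `1`, `2` or `4` up to sign.

Proof. Let `P`, `Q` be the lists of the roots with sign `1` and `-1`; `P.sum = Q.sum`. Up to
exchanging `P` and `Q` the lengths are one of `(1,0)`, `(2,0)`, `(2,1)`, `(3,1)`, `(4,0)`, `(3,2)`.
By `sum_pow_eq_zero` with `m = 2`, the sums of the squares are equal too, and by
`sum_inv_eq_zero` the sums of the inverses. Let `a_i`, `c_i` be the elementary symmetric functions
of `P`, `Q`. The elements `z` with `z ^ N = 1` (`N` odd) form a group which does not contain `-1`.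
* (1,0): `z = 0` is impossible.
* (2,0): `z = -z'` is impossible.
* (2,1): `a_1 = c_1`, `a_1² - 2 a_2 = c_1²`, so `a_2 = 0`, impossible.
* (3,1): `a_1 = c_1`, `a_1² - 2 a_2 = c_1²`, so `a_2 = 0`; the sum of the inverses of `P` is
  `a_2 / a_3 = 0`, so `Q⁻¹ = 0`, impossible.
* (4,0): `a_1 = 0`, `a_2 = 0` and `a_3 = a_4 * (sum of the inverses) = 0`, so each `z` in `P`
  satisfies `z⁴ = -a_4`, impossible because `z⁴ / a_4` has odd order.
* (3,2): `a_1 = c_1`, `a_2 = c_2` (from the squares), the sum of the inverses is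
  `a_2 / a_3 = c_1 / c_2`, so `c_1 * a_3 = c_2 ^ 2`. Let `s = c_1`. With the inverses:
  `s' = c_1 / c_2` is the conjugate of `s`, `s * s' = s² / c_2`; from `s = c_2² / a_3` we get
  `s` is a root of unity of odd order. But `s = z + z'` with `z, z'` of odd order, which is
  excluded by case (2,1). -/
theorem sum_ne_zero_odd (N : ℕ) (hN : Odd N) (L : List (ℤ × ℂ))
    (hL : ∀ p ∈ L, (p.1 = 1 ∨ p.1 = -1) ∧ p.2 ^ N = 1) (hk : L.length ≤ 5)
    (he : (L.map Prod.fst).sum = 1 ∨ (L.map Prod.fst).sum = -1 ∨ (L.map Prod.fst).sum = 2 ∨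
      (L.map Prod.fst).sum = -2 ∨ (L.map Prod.fst).sum = 4 ∨ (L.map Prod.fst).sum = -4) :
    (L.map fun p => (p.1 : ℂ) * p.2).sum ≠ 0 := by
  obtain ⟨P, Q, h1, h2, h3, h4, h5⟩ := exists_split N L hL
  rw [← h5, sub_ne_zero]
  rw [← h4] at he
  by_cases h : Q.length ≤ P.length
  · exact cases_odd N hN P Q h1 h2 (by omega) (by omega)
  · exact (cases_odd N hN Q P h2 h1 (by omega) (by omega)).symm

end Pool.Agent.Lib.MP_69c751_al.SE
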