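import Mathlib
import Pool.Agent.Lib.MP_69c751_al.TM.Defs
import Pool.Agent.Lib.MP_69c751_al.TM.PartA
import Pool.Agent.Lib.MP_69c751_al.TM.Cor

section

set_option autoImplicit false

/-!
Short equations over metabelian groups (MP_69c751_al): Fourier transform on a finite abelian group.
-/

namespace Pool.Agent.Lib.MP_69c751_al.SE

private theorem se4_conv {R : Type*} [CommGroup R] [Fintype (Additive R)] (v : R → ℂ)
    (χ : AddChar (Additive R) ℂ) (L : List (ℤ × R)) :
    ∑ s : Additive R, (L.map fun p => (p.1 : ℂ) * v (s.toMul * p.2)).sum * χ (-s) =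
      (L.map fun p => (p.1 : ℂ) * χ (Additive.ofMul p.2)).sum * ∑ s : Additive R, v s.toMul * χ (-s) := by
  induction L with
  | nil => simp
  | cons p L ih =>
    simp only [List.map_cons, List.sum_cons, add_mul, Finset.sum_add_distrib]
    rw [ih]
    congr 1
    have h1 : ∑ s : Additive R, v s.toMul * χ (-s) =
        ∑ s : Additive R, v (s.toMul * p.2) * χ (-(s + Additive.ofMul p.2)) :=
      (Equiv.sum_comp (Equiv.addRight (Additive.ofMul p.2)) fun s : Additive R => v s.toMul * χ (-s)).symm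
    rw [h1, Finset.mul_sum]
    refine Finset.sum_congr rfl fun s _ => ?_
    have h2 : χ (Additive.ofMul p.2) * χ (-(s + Additive.ofMul p.2)) = χ (-s) := by
      rw [← AddChar.map_add_eq_mul]
      congr 1
      abel
    rw [← h2]
    ring

/-- If a function on a finite abelian group is annihilated by the operator
`v ↦ (s ↦ ∑ c * v (s * t))` (sum over the pairs `(c, t)` of a list) and the numbers
`∑ c * χ t` are not zero for all characters `χ`, then the function is zero.

Proof: let `v' χ = ∑ s, v s * χ s⁻¹`. Then `0 = ∑ s, (∑ c * v (s * t)) * χ s⁻¹ =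
(∑ c * χ t) * v' χ` (substitute `s * t` for the summation variable, `χ s⁻¹ = χ (s * t)⁻¹ * χ t`).
So `v' χ = 0` for all `χ`, and `∑ χ, v' χ * χ s = Nat.card R * v s` by orthogonality:
`AddChar.sum_apply_eq_ite` for the additive group `Additive R` (the characters of `R` are the
`AddChar (Additive R) ℂ`). -/
theorem eq_zero_of_conv {R : Type*} [CommGroup R] [Finite R] (L : List (ℤ × R)) (v : R → ℂ)
    (hv : ∀ s, (L.map fun p => (p.1 : ℂ) * v (s * p.2)).sum = 0)
    (h : ∀ χ : R →* ℂ, (L.map fun p => (p.1 : ℂ) * χ p.2).sum ≠ 0) : v = 0 := by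
  classical
  have : Fintype R := Fintype.ofFinite R
  have : Fintype (Additive R) := Fintype.ofFinite _
  have hc : ∀ χ : AddChar (Additive R) ℂ, ∑ s : Additive R, v s.toMul * χ (-s) = 0 := by
    intro χ
    have h1 := se4_conv v χ L
    have h2 : ∑ s : Additive R, (L.map fun p => (p.1 : ℂ) * v (s.toMul * p.2)).sum * χ (-s) = 0 :=
      Finset.sum_eq_zero fun s _ => by rw [hv, zero_mul]
    rw [h2] at h1
    exact (mul_eq_zero.1 h1.symm).resolve_left (h ⟨⟨fun r => χ (Additive.ofMul r), χ.map_zero_eq_one⟩,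
      fun a b => χ.map_add_eq_mul _ _⟩)
  funext s₀
  have h3 : ∑ χ : AddChar (Additive R) ℂ, (∑ s : Additive R, v s.toMul * χ (-s)) * χ (Additive.ofMul s₀) =
      (Fintype.card (Additive R) : ℂ) * v s₀ := by
    calc ∑ χ : AddChar (Additive R) ℂ, (∑ s : Additive R, v s.toMul * χ (-s)) * χ (Additive.ofMul s₀)
        = ∑ χ : AddChar (Additive R) ℂ, ∑ s : Additive R, v s.toMul * χ (-s + Additive.ofMul s₀) := by
          refine Finset.sum_congr rfl fun χ _ => ?_
          rw [Finset.sum_mul]
          refine Finset.sum_congr rfl fun s _ => ?_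
          rw [AddChar.map_add_eq_mul, mul_assoc]
      _ = ∑ s : Additive R, v s.toMul * ∑ χ : AddChar (Additive R) ℂ, χ (-s + Additive.ofMul s₀) := by
          rw [Finset.sum_comm]
          exact Finset.sum_congr rfl fun s _ => (Finset.mul_sum _ _ _).symm
      _ = ∑ s : Additive R, v s.toMul *
            (if -s + Additive.ofMul s₀ = 0 then (Fintype.card (Additive R) : ℂ) else 0) := by
          refine Finset.sum_congr rfl fun s _ => ?_
          rw [AddChar.sum_apply_eq_ite]
      _ = v s₀ * (Fintype.card (Additive R) : ℂ) := by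
          rw [Finset.sum_eq_single (Additive.ofMul s₀)]
          · rw [if_pos (neg_add_cancel _)]
            rfl
          · intro s _ hs
            rw [if_neg, mul_zero]
            intro h0
            exact hs (neg_add_eq_zero.1 h0)
          · intro h0
            exact absurd (Finset.mem_univ _) h0
      _ = _ := mul_comm _ _
  have h4 : ∑ χ : AddChar (Additive R) ℂ, (∑ s : Additive R, v s.toMul * χ (-s)) * χ (Additive.ofMul s₀) = 0 :=
    Finset.sum_eq_zero fun χ _ => by rw [hc, zero_mul]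
  rw [h4] at h3
  have h5 : (Fintype.card (Additive R) : ℂ) ≠ 0 := Nat.cast_ne_zero.2 Fintype.card_ne_zero
  exact (mul_eq_zero.1 h3.symm).resolve_left h5

end Pool.Agent.Lib.MP_69c751_al.SE
end

section

set_option autoImplicit false

/-!
Short equations over metabelian groups (MP_69c751_al): passage to finitely generated subgroups,
with a given lift of the system.
-/

namespace Pool.Agent.Lib.MP_69c751_al.SE

open Monoid Pool.Agent.Lib.MP_69c751_al.TM

universe u

variable {G : Type u} [Group G] {ι κ : Type}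

/-- A system with coefficients in the finitely generated subgroup `H₀` is solvable over `G` in an
overgroup of derived length at most `d` if this holds over all finitely generated subgroups
containing `H₀`. -/
theorem sol_of_local' (d : ℕ) (H₀ : Subgroup G) (hH₀ : H₀.FG)
    (w₀ : ι → Coprod H₀ (FreeGroup κ))
    (h : ∀ (H : Subgroup G) (hle : H₀ ≤ H), H.FG →
      Sol d (fun i => Coprod.map (Subgroup.inclusion hle) (MonoidHom.id (FreeGroup κ)) (w₀ i))) :
    Sol d (fun i => Coprod.map H₀.subtype (MonoidHom.id (FreeGroup κ)) (w₀ i)) := by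
  classical
  let P := {H : Subgroup G // H.FG ∧ H₀ ≤ H}
  have hsol : ∀ H : P, Sol d (fun i => Coprod.map (Subgroup.inclusion H.2.2)
      (MonoidHom.id (FreeGroup κ)) (w₀ i)) := fun H => h H.1 H.2.2 H.2.1
  unfold Sol at hsol
  choose Γ instΓ f hf hd x hx using hsol
  have hdir : ∀ H₁ H₂ : P, ∃ H₃ : P, H₁ ≤ H₃ ∧ H₂ ≤ H₃ := fun H₁ H₂ =>
    ⟨⟨H₁.1 ⊔ H₂.1, H₁.2.1.sup H₂.2.1, H₁.2.2.trans le_sup_left⟩, le_sup_left (a := H₁.1),
      le_sup_right (b := H₂.1)⟩
  have hcont : ∀ g : G, ∃ H₁ : P, ∀ H : P, H₁ ≤ H → g ∈ H.1 := fun g =>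
    ⟨⟨H₀ ⊔ Subgroup.closure {g}, hH₀.sup ⟨{g}, by simp⟩, le_sup_left⟩, fun H hH =>
      hH (Subgroup.mem_sup_right (Subgroup.subset_closure rfl))⟩
  let N : Subgroup (∀ H : P, Γ H) :=
    { carrier := {a | ∃ H₁ : P, ∀ H : P, H₁ ≤ H → a H = 1}
      mul_mem' := by
        rintro a b ⟨H₁, h₁⟩ ⟨H₂, h₂⟩
        obtain ⟨H₃, h3, h4⟩ := hdir H₁ H₂
        exact ⟨H₃, fun H hH => by rw [Pi.mul_apply, h₁ H (h3.trans hH), h₂ H (h4.trans hH), mul_one]⟩
      one_mem' := ⟨⟨H₀, hH₀, le_rfl⟩, fun H _ => rfl⟩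
      inv_mem' := by
        rintro a ⟨H₁, h₁⟩
        exact ⟨H₁, fun H hH => by rw [Pi.inv_apply, h₁ H hH, inv_one]⟩ }
  have hN : ∀ a : ∀ H : P, Γ H, a ∈ N ↔ ∃ H₁ : P, ∀ H : P, H₁ ≤ H → a H = 1 := fun a => Iff.rfl
  have hNn : N.Normal := ⟨by
    intro a ha g
    rw [hN] at ha ⊢
    obtain ⟨H₁, h₁⟩ := ha
    exact ⟨H₁, fun H hH => by
      rw [Pi.mul_apply, Pi.mul_apply, h₁ H hH, mul_one, Pi.inv_apply, mul_inv_cancel]⟩⟩
  let fam : G → ∀ H : P, Γ H := fun g H => if hg : g ∈ H.1 then f H ⟨g, hg⟩ else 1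
  have hfam : ∀ (g : G) (H : P) (hg : g ∈ H.1), fam g H = f H ⟨g, hg⟩ := fun g H hg => dif_pos hg
  let F : G →* (∀ H : P, Γ H) ⧸ N := MonoidHom.mk' (fun g => QuotientGroup.mk (fam g)) (by
    intro g g'
    rw [← QuotientGroup.mk_mul, QuotientGroup.eq, hN]
    obtain ⟨H₁, h₁⟩ := hcont g
    obtain ⟨H₂, h₂⟩ := hcont g'
    obtain ⟨H₃, h3, h4⟩ := hdir H₁ H₂
    refine ⟨H₃, fun H hH => ?_⟩
    have g1 := h₁ H (h3.trans hH)
    have g2 := h₂ H (h4.trans hH)
    rw [Pi.mul_apply, Pi.inv_apply, Pi.mul_apply, hfam _ H g1, hfam _ H g2,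
      hfam _ H (H.1.mul_mem g1 g2), ← map_mul]
    exact inv_mul_cancel _)
  refine ⟨(∀ H : P, Γ H) ⧸ N, inferInstance, F, ?_, ?_, fun k => QuotientGroup.mk fun H => x H k, ?_⟩
  · rw [injective_iff_map_eq_one]
    intro g hg
    have hg' : fam g ∈ N := (QuotientGroup.eq_one_iff _).mp hg
    rw [hN] at hg'
    obtain ⟨H₁, h₁⟩ := hg'
    obtain ⟨H₂, h₂⟩ := hcont g
    obtain ⟨H₃, h3, h4⟩ := hdir H₁ H₂
    have e1 := h₁ H₃ h3
    rw [hfam _ H₃ (h₂ H₃ h4)] at e1
    have e2 := hf H₃ (e1.trans (map_one (f H₃)).symm)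
    exact congrArg Subtype.val e2
  · have hbot : derivedSeries (∀ H : P, Γ H) d = ⊥ := by
      rw [eq_bot_iff]
      intro a ha
      rw [Subgroup.mem_bot]
      funext H
      have h1 : (Pi.evalMonoidHom Γ H) a ∈ (derivedSeries (∀ H : P, Γ H) d).map
          (Pi.evalMonoidHom Γ H) := Subgroup.mem_map_of_mem _ ha
      have h2 := map_derivedSeries_le_derivedSeries (Pi.evalMonoidHom Γ H) d h1
      rw [hd H, Subgroup.mem_bot] at h2
      exact h2
    rw [← map_derivedSeries_eq (QuotientGroup.mk'_surjective N), hbot, Subgroup.map_bot]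
  · intro i
    rw [evalHom_map]
    have e : evalHom (F.comp H₀.subtype) (fun k => FreeGroup.lift
        (fun k => (QuotientGroup.mk (fun H => x H k) : (∀ H : P, Γ H) ⧸ N))
        (MonoidHom.id (FreeGroup κ) (FreeGroup.of k))) =
        (QuotientGroup.mk' N).comp (MonoidHom.pi fun H : P => (evalHom (f H) (x H)).comp
          (Coprod.map (Subgroup.inclusion H.2.2) (MonoidHom.id (FreeGroup κ)))) := by
      apply hom_ext
      · intro g
        rw [evalHom_inl, MonoidHom.comp_apply, MonoidHom.comp_apply, QuotientGroup.mk'_apply]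
        show QuotientGroup.mk (fam g) = _
        congr 1
        funext H
        rw [hfam _ H (H.2.2 g.2)]
        show _ = evalHom (f H) (x H) (Coprod.map (Subgroup.inclusion H.2.2)
          (MonoidHom.id (FreeGroup κ)) (Coprod.inl g))
        rw [Coprod.map_apply_inl, evalHom_inl]
        rfl
      · intro k
        rw [evalHom_inr, MonoidHom.comp_apply, QuotientGroup.mk'_apply, MonoidHom.id_apply,
          FreeGroup.lift_apply_of]
        congr 1
        funext H
        show _ = evalHom (f H) (x H) (Coprod.map (Subgroup.inclusion H.2.2)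
          (MonoidHom.id (FreeGroup κ)) (Coprod.inr (FreeGroup.of k)))
        rw [Coprod.map_apply_inr, MonoidHom.id_apply, evalHom_inr]
    rw [e, MonoidHom.comp_apply, QuotientGroup.mk'_apply, QuotientGroup.eq_one_iff, hN]
    refine ⟨⟨H₀, hH₀, le_rfl⟩, fun H _ => ?_⟩
    exact hx H i

end Pool.Agent.Lib.MP_69c751_al.SE
end

section

set_option autoImplicit false

/-!
Short equations over metabelian groups (MP_69c751_al): a finite group on top, with a solution at
which the linearised system is nonsingular.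
-/

namespace Pool.Agent.Lib.MP_69c751_al.SE

open Monoid Pool.Agent.Lib.MP_69c751_al.TM

universe u v

/-- The inclusion of the top group in a wreath product. -/
def inR (P : Type*) [Group P] {R : Type*} [Group R] : R →* Wr P R where
  toFun r := ⟨fun _ => 1, r⟩
  map_one' := rfl
  map_mul' a b := by
    apply Wr.ext
    · funext s; simp
    · simp

@[simp] theorem inR_l (P : Type*) [Group P] {R : Type*} [Group R] (r s : R) :
    (inR P r).l s = 1 := rfl

@[simp] theorem inR_r (P : Type*) [Group P] {R : Type*} [Group R] (r : R) :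
    (inR P r).r = r := rfl

section

variable {G : Type u} [Group G] {κ : Type} [Fintype κ] [DecidableEq κ] {P₀ : Type v} [Group P₀]
  {R : Type v} [Group R] {n : ℕ}

omit [DecidableEq κ] in
/-- Evaluation in the additive group of a ring. -/
theorem eval_one (F : Type*) [CommRing F] (v : κ → F) (u : Coprod G (FreeGroup κ)) :
    evalHom (1 : G →* Multiplicative F) (fun p => Multiplicative.ofAdd (v p)) u =
      Multiplicative.ofAdd (∑ p, ((Multiplicative.toAdd (expHom G κ u) p : ℤ) : F) * v p) := by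
  classical
  let φ : Coprod G (FreeGroup κ) →* Multiplicative F := MonoidHom.mk'
    (fun u => Multiplicative.ofAdd
      (∑ p, ((Multiplicative.toAdd (expHom G κ u) p : ℤ) : F) * v p)) (by
      intro a b
      rw [← ofAdd_add, ← Finset.sum_add_distrib]
      congr 1
      apply Finset.sum_congr rfl
      intro p _
      rw [map_mul, toAdd_mul, Pi.add_apply, Int.cast_add, add_mul])
  have h : evalHom (1 : G →* Multiplicative F) (fun p => Multiplicative.ofAdd (v p)) = φ := by
    apply hom_ext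
    · intro g
      show _ = Multiplicative.ofAdd
        (∑ p, ((Multiplicative.toAdd (expHom G κ (Coprod.inl g)) p : ℤ) : F) * v p)
      rw [evalHom_inl, expHom_inl]
      simp
    · intro k
      show _ = Multiplicative.ofAdd
        (∑ p, ((Multiplicative.toAdd (expHom G κ (Coprod.inr (FreeGroup.of k))) p : ℤ) : F) * v p)
      rw [evalHom_inr, expHom_inr, toAdd_ofAdd, Finset.sum_eq_single k]
      · simp
      · intro j _ hj
        rw [Pi.single_eq_of_ne hj]
        simp
      · intro h
        exact absurd (Finset.mem_univ k) h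
  rw [h]
  rfl

/-- The linearised components. -/
noncomputable def lin (F : Type*) [CommRing F] (π : G →* R) (σ : κ → R) (v : κ → R → F) :
    Coprod G (FreeGroup κ) →* Wr (Multiplicative F) R :=
  evalHom ((inR (Multiplicative F)).comp π) (fun k => ⟨fun s => Multiplicative.ofAdd (v k s), σ k⟩)

theorem lin_eq (F : Type*) [CommRing F] (f : G →* Wr P₀ R) (ε : R ≃ Fin n)
    (σ : κ → R) (v : κ × Fin n → F) : lin F (Wr.proj.comp f) σ (fun k s => v (k, ε s)) =
      (Wr.map (evalHom (1 : P₀ →* Multiplicative F) fun p => Multiplicative.ofAdd (v p))).comp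
        (compHom f ε σ) := by
  unfold lin
  apply hom_ext
  · intro a
    simp only [MonoidHom.comp_apply, compHom, evalHom_inl]
    apply Wr.ext
    · funext s
      simp [evalHom_inl]
    · simp
  · intro k
    simp only [MonoidHom.comp_apply, compHom, evalHom_inr]
    apply Wr.ext
    · funext s
      simp [evalHom_inr]
    · simp

theorem lin_l (F : Type*) [CommRing F] (f : G →* Wr P₀ R) (ε : R ≃ Fin n)
    (σ : κ → R) (w : κ → Coprod G (FreeGroup κ)) (v : κ × Fin n → F) (i : κ) (s : R) :
    (lin F (Wr.proj.comp f) σ (fun k s => v (k, ε s)) (w i)).l s = Multiplicative.ofAdd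
      (((expMat (compSys f ε σ w)).map (Int.cast : ℤ → F)).mulVec v (i, ε s)) := by
  rw [lin_eq]
  have h1 : ((Wr.map (evalHom (1 : P₀ →* Multiplicative F)
      fun p => Multiplicative.ofAdd (v p))).comp (compHom f ε σ) (w i)).l s =
      evalHom (1 : P₀ →* Multiplicative F) (fun p => Multiplicative.ofAdd (v p))
        (compSys f ε σ w (i, ε s)) := by
    simp only [compSys, Equiv.symm_apply_apply]
    rfl
  rw [h1, eval_one]
  rfl

/-- If the linearised system is nonsingular then so is the exponent matrix of the system of the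
components. -/
theorem det_comp_ne_zero (F : Type*) [Field F] [CharZero F] (f : G →* Wr P₀ R) (ε : R ≃ Fin n)
    (σ : κ → R) (w : κ → Coprod G (FreeGroup κ))
    (h : ∀ v : κ → R → F, (∀ i s, (lin F (Wr.proj.comp f) σ v (w i)).l s = 1) → v = 0) :
    (expMat (compSys f ε σ w)).det ≠ 0 := by
  intro hdet
  have h1 : ((expMat (compSys f ε σ w)).map (Int.cast : ℤ → F)).det = 0 := by
    have h2 := (Int.castRingHom F).map_det (expMat (compSys f ε σ w))
    rw [hdet, map_zero] at h2
    exact h2.symm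
  obtain ⟨v, hv0, hv⟩ := Matrix.exists_mulVec_eq_zero_iff.mpr h1
  apply hv0
  have h3 := h (fun k s => v (k, ε s)) (fun i s => by
    rw [lin_l, hv]
    rfl)
  funext p
  have h4 := congrFun (congrFun h3 p.1) (ε.symm p.2)
  simpa using h4

end

/-- Part B with a finite group on top and a solution at which the linearised system is
nonsingular. -/
theorem partB_ns {G : Type u} [Group G] [Group.FG G] (A N : Subgroup G) [A.Normal] [N.Normal]
    (hA : ∀ a ∈ A, ∀ b ∈ A, a * b = b * a)
    (hT : ∀ a ∈ N, ∀ b ∈ N, a * b * a⁻¹ * b⁻¹ ∈ A) (q : ℕ) (hq : q.Prime)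
    (htor : ∀ g ∈ N, ∀ n : ℕ, 0 < n → g ^ n ∈ A → ∃ k : ℕ, g ^ q ^ k ∈ A)
    (hidx : N.FiniteIndex) (s : ℕ) (hs : derivedSeries G s ≤ N)
    {κ : Type} [Fintype κ] [DecidableEq κ] (w : κ → Coprod G (FreeGroup κ)) (σ : κ → G ⧸ N)
    (hσ : ∀ i, evalHom (QuotientGroup.mk' N) σ (w i) = 1)
    (hns : ∀ v : κ → (G ⧸ N) → ℂ,
      (∀ i s, (lin ℂ (QuotientGroup.mk' N) σ v (w i)).l s = 1) → v = 0) :
    Sol (s + 2) w := by
  classical
  have : Finite (G ⧸ N) := Subgroup.finite_quotient_of_finiteIndex
  obtain ⟨f, hf, hfr⟩ := Wr.exists_kk N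
  let ε : (G ⧸ N) ≃ Fin (Nat.card (G ⧸ N)) := Finite.equivFin _
  have hproj : Wr.proj.comp f = QuotientGroup.mk' N := by
    ext g
    exact hfr g
  have hdet' : (expMat (compSys f ε σ w)).det ≠ 0 :=
    det_comp_ne_zero ℂ f ε σ w (by rw [hproj]; exact hns)
  have hNfg : Group.FG N := inferInstance
  obtain ⟨H, _, g, hg, hd, y, hy⟩ := partA (G := N) (A.subgroupOf N)
    (by
      intro a ha b hb
      exact Subtype.ext (hA a (Subgroup.mem_subgroupOf.1 ha) b (Subgroup.mem_subgroupOf.1 hb)))
    (by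
      intro a b
      rw [Subgroup.mem_subgroupOf]
      exact hT a a.2 b b.2) q hq
    (by
      intro g n hn h
      rw [Subgroup.mem_subgroupOf] at h
      obtain ⟨k, hk⟩ := htor g g.2 n hn h
      exact ⟨k, Subgroup.mem_subgroupOf.2 hk⟩)
    (compSys f ε σ w) hdet'
  have hsol := sol_of_comp f ε σ w (by rw [hproj]; exact hσ) g y hy
  refine ⟨Wr H (G ⧸ N), inferInstance, (Wr.map g).comp f, ?_, ?_, _, hsol⟩
  · exact (Wr.map_injective hg).comp hf
  · apply Wr.derivedSeries_eq_bot 2 s hd
    rw [eq_bot_iff, ← map_derivedSeries_eq (QuotientGroup.mk'_surjective N) s]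
    rintro _ ⟨z, hz, rfl⟩
    rw [Subgroup.mem_bot]
    exact (QuotientGroup.eq_one_iff z).2 (hs hz)

end Pool.Agent.Lib.MP_69c751_al.SE
end

section

set_option autoImplicit false

/-!
Short equations over metabelian groups (MP_69c751_al): words in one unknown given as lists.
-/

namespace Pool.Agent.Lib.MP_69c751_al.SE

open Monoid Pool.Agent.Lib.MP_69c751_al.TM

universe u v

variable {G : Type u} [Group G]

/-- The word `g₀ x ^ c₁ g₁ x ^ c₂ g₂ ⋯` given by `g₀` and the list of the pairs `(c i, g i)`. -/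
noncomputable def wd (g₀ : G) (l : List (ℤ × G)) : Coprod G (FreeGroup Unit) :=
  Coprod.inl g₀ * (l.map fun p => (Coprod.inr (FreeGroup.of ()) : Coprod G (FreeGroup Unit)) ^ p.1 *
    Coprod.inl p.2).prod

theorem evalHom_wd {H : Type v} [Group H] (f : G →* H) (x : Unit → H) (g₀ : G)
    (l : List (ℤ × G)) :
    evalHom f x (wd g₀ l) = f g₀ * (l.map fun p => x () ^ p.1 * f p.2).prod := by
  unfold wd
  rw [map_mul, evalHom_inl, map_list_prod, List.map_map]
  congr 2
  apply List.map_congr_left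
  intro p _
  simp [evalHom_inl, evalHom_inr]

theorem map_wd {G' : Type*} [Group G'] (p : G →* G') (g₀ : G) (l : List (ℤ × G)) :
    Coprod.map p (MonoidHom.id _) (wd g₀ l) = wd (p g₀) (l.map fun c => (c.1, p c.2)) := by
  unfold wd
  rw [map_mul, Coprod.map_apply_inl, map_list_prod, List.map_map, List.map_map]
  congr 2
  apply List.map_congr_left
  intro c _
  simp

variable {R : Type v} [Group R]

/-- The terms of the linearised word. -/
def terms (π : G →* R) (σ : R) : R → List (ℤ × G) → List (ℤ × R)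
  | _, [] => []
  | u, p :: l => (p.1, if p.1 = 1 then u else u * σ⁻¹) :: terms π σ (u * σ ^ p.1 * π p.2) l

theorem terms_fst (π : G →* R) (σ : R) (u : R) (l : List (ℤ × G)) :
    (terms π σ u l).map Prod.fst = l.map Prod.fst := by
  induction l generalizing u with
  | nil => rfl
  | cons p l ih => simp [terms, ih]

theorem lin_prod (π : G →* R) (σ : R) (v : R → ℂ) (l : List (ℤ × G))
    (hl : ∀ p ∈ l, p.1 = 1 ∨ p.1 = -1) (u s : R) :
    (((l.map fun p => (⟨fun s => Multiplicative.ofAdd (v s), σ⟩ : Wr (Multiplicative ℂ) R) ^ p.1 *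
      inR (Multiplicative ℂ) (π p.2)).prod : Wr (Multiplicative ℂ) R)).l (s * u) =
      Multiplicative.ofAdd (((terms π σ u l).map fun p => (p.1 : ℂ) * v (s * p.2)).sum) := by
  induction l generalizing u with
  | nil => simp [terms]
  | cons p l ih =>
    have ih' := fun u => ih (fun q hq => hl q (List.mem_cons_of_mem _ hq)) u
    have hr : ∀ c : ℤ, ((⟨fun s => Multiplicative.ofAdd (v s), σ⟩ : Wr (Multiplicative ℂ) R) ^ c).r
        = σ ^ c := fun c => map_zpow (Wr.proj : Wr (Multiplicative ℂ) R →* R) _ c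
    rw [List.map_cons, List.prod_cons, Wr.mul_l, Wr.mul_l, Wr.mul_r, inR_l, mul_one, inR_r, hr]
    have e1 : s * u * (σ ^ p.1 * π p.2) = s * (u * σ ^ p.1 * π p.2) := by group
    rw [e1, ih', terms, List.map_cons, List.sum_cons, ofAdd_add]
    congr 1
    rcases hl p (List.mem_cons_self) with h | h
    · rw [h, zpow_one]
      simp
    · rw [h, zpow_neg_one, Wr.inv_l]
      have h1 : ¬ ((-1 : ℤ) = 1) := by decide
      simp only [h1, if_false]
      rw [← ofAdd_neg]
      congr 1
      push_cast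
      rw [mul_assoc]
      ring

theorem lin_wd (π : G →* R) (σ : Unit → R) (v : Unit → R → ℂ) (g₀ : G) (l : List (ℤ × G))
    (hl : ∀ p ∈ l, p.1 = 1 ∨ p.1 = -1) (s : R) :
    (lin ℂ π σ v (wd g₀ l)).l s = Multiplicative.ofAdd
      (((terms π (σ ()) (π g₀) l).map fun p => (p.1 : ℂ) * v () (s * p.2)).sum) := by
  unfold lin
  rw [evalHom_wd, MonoidHom.comp_apply, Wr.mul_l, inR_l, one_mul, inR_r]
  exact lin_prod π (σ ()) (v ()) l hl (π g₀) s

end Pool.Agent.Lib.MP_69c751_al.SE
end

section

set_option autoImplicit false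

/-!
Short equations over metabelian groups (MP_69c751_al): torsion of finitely generated abelian
groups.
-/

namespace Pool.Agent.Lib.MP_69c751_al.SE

open Pool.Agent.Lib.MP_69c751_al.TM

/-- In a finitely generated abelian group `T` some subgroup `T ^ N` with `N` prime to `q` has only
`q`-torsion, where every prime divisor of `N` is the order of an element of `T`.

Proof: by `exists_exponent` and `Nat.find` there is a least positive `N₀` such that `t ^ N₀ = 1`
for all torsion elements `t`. A prime divisor `p` of `N₀` is the order of an element (otherwise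
`N₀ / p` would do: there is a torsion element with `t ^ (N₀ / p) ≠ 1`, and `t ^ (N₀ / p)` has order
`p`). Write `N₀ = q ^ a * N` with `N` prime to `q`. If `(t ^ N) ^ n = 1` then `t` is a torsion
element, so `(t ^ N) ^ q ^ a = 1`. -/
theorem exists_power_prime_to (T : Type*) [CommGroup T] [Group.FG T] (q : ℕ) (hq : q.Prime) :
    ∃ N : ℕ, 0 < N ∧ ¬ q ∣ N ∧ (∀ p : ℕ, p.Prime → p ∣ N → ∃ t : T, t ≠ 1 ∧ t ^ p = 1) ∧
      ∀ t : T, ∀ n : ℕ, 0 < n → (t ^ N) ^ n = 1 → ∃ k : ℕ, (t ^ N) ^ q ^ k = 1 := by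
  classical
  have hex : ∃ N : ℕ, 0 < N ∧ ∀ t : T, (∃ n : ℕ, 0 < n ∧ t ^ n = 1) → t ^ N = 1 :=
    exists_exponent T
  obtain ⟨hN₀, hN₀t⟩ := Nat.find_spec hex
  have hmin := fun m (hm : m < Nat.find hex) => Nat.find_min hex hm
  generalize Nat.find hex = N₀ at hN₀ hN₀t hmin
  obtain ⟨a, N, hN, hab⟩ := Nat.exists_eq_pow_mul_and_not_dvd hN₀.ne' q hq.ne_one
  have hNpos : 0 < N := by
    rcases Nat.eq_zero_or_pos N with h | h
    · rw [h, mul_zero] at hab
      omega
    · exact h
  refine ⟨N, hNpos, hN, ?_, ?_⟩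
  · intro p hp hpN
    have hpN₀ : p ∣ N₀ := by
      rw [hab]
      exact hpN.mul_left _
    obtain ⟨c, hc⟩ := hpN₀
    have hc0 : 0 < c := by
      rcases Nat.eq_zero_or_pos c with h | h
      · rw [h, mul_zero] at hc
        omega
      · exact h
    have hclt : c < N₀ := by
      rw [hc]
      exact (Nat.lt_mul_iff_one_lt_left hc0).mpr hp.one_lt
    have h1 := hmin c hclt
    by_contra h2
    apply h1
    refine ⟨hc0, fun t ht => ?_⟩
    by_contra h3
    apply h2
    refine ⟨t ^ c, h3, ?_⟩
    rw [← pow_mul, mul_comm, ← hc]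
    exact hN₀t t ht
  · intro t n hn ht
    refine ⟨a, ?_⟩
    rw [← pow_mul, mul_comm, ← hab]
    exact hN₀t t ⟨N * n, Nat.mul_pos hNpos hn, by rw [pow_mul, ht]⟩

end Pool.Agent.Lib.MP_69c751_al.SE
end
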